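import Pool.Agent.helper96.SV.SpecA

set_option autoImplicit false

namespace Pool.Agent.SVA

open Polynomial Module

theorem PHE_mul (A : ℂ[X]) (M : Multiset ℂ) : ∃ ψ : ℕ → ℂ[X],
    (∀ ε : ℂ, (M.map fun s => A - C (ε * s)).prod =
      ∑ k ∈ Finset.range (Multiset.card M + 1), C (ε ^ k) * ψ k) ∧
    (∀ k, Multiset.card M < k → ψ k = 0) ∧
    ψ 0 = A ^ Multiset.card M ∧ ψ 1 = - (C M.sum * A ^ (Multiset.card M - 1)) := by
  induction M using Multiset.induction with
  | empty =>
    refine ⟨fun k => if k = 0 then 1 else 0, fun ε => by simp, fun k hk => ?_, by simp, by simp⟩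
    simp only [Multiset.card_zero] at hk
    simp [hk.ne']
  | cons s M ih =>
    obtain ⟨ψ, h1, h2, h3, h4⟩ := ih
    refine ⟨fun k => match k with
      | 0 => A * ψ 0
      | (j + 1) => A * ψ (j + 1) - C s * ψ j, fun ε => ?_, fun k hk => ?_, ?_, ?_⟩
    · rw [Multiset.map_cons, Multiset.prod_cons, h1, Multiset.card_cons]
      conv_rhs => rw [Finset.sum_range_succ']
      have e1 : ∑ k ∈ Finset.range (Multiset.card M + 1), C (ε ^ k) * ψ k =
          ∑ k ∈ Finset.range (Multiset.card M + 1), C (ε ^ (k + 1)) * ψ (k + 1) + ψ 0 := by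
        have e2 := Finset.sum_range_succ' (fun k => C (ε ^ k) * ψ k) (Multiset.card M + 1)
        rw [Finset.sum_range_succ] at e2
        rw [h2 _ (Nat.lt_succ_self _), mul_zero, add_zero] at e2
        rw [e2]
        simp
      have e3 : ∑ k ∈ Finset.range (Multiset.card M + 1),
          C (ε ^ (k + 1)) * (A * ψ (k + 1) - C s * ψ k) =
          A * ∑ k ∈ Finset.range (Multiset.card M + 1), C (ε ^ (k + 1)) * ψ (k + 1) -
          C (ε * s) * ∑ k ∈ Finset.range (Multiset.card M + 1), C (ε ^ k) * ψ k := by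
        rw [Finset.mul_sum, Finset.mul_sum, ← Finset.sum_sub_distrib]
        refine Finset.sum_congr rfl fun k _ => ?_
        rw [pow_succ, C_mul, C_mul]
        ring
      simp only at e3 ⊢
      rw [e3, sub_mul]
      nth_rewrite 1 [e1]
      rw [pow_zero, C_1]
      ring
    · rw [Multiset.card_cons] at hk
      rcases k with _ | k
      · omega
      · simp only
        rw [h2 (k + 1) (by omega), h2 k (by omega)]
        ring
    · rw [Multiset.card_cons]
      simp only
      rw [h3]
      ring
    · rw [Multiset.card_cons, Multiset.sum_cons]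
      simp only [zero_add, Nat.add_sub_cancel]
      rw [h4, h3, C_add]
      by_cases h0 : Multiset.card M = 0
      · have hM : M = 0 := Multiset.card_eq_zero.1 h0
        subst hM
        simp
      · obtain ⟨n, hn⟩ := Nat.exists_eq_succ_of_ne_zero h0
        rw [hn, Nat.succ_sub_one, pow_succ]
        ring

theorem PHE : PHE_stmt := by
  intro K _ _ m t₀ σ
  have key : ∀ β : Bx m, ∃ ψ : ℕ → ℂ[X],
      (∀ ε : ℂ, phi (fun α => t₀ + ε * σ α) β =
        ∑ k ∈ Finset.range (DD m + 1), C (ε ^ k) * ψ k) ∧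
      ψ 0 = (X - C t₀) ^ DD m ∧ ψ 1 = - (C (Mx σ β) * (X - C t₀) ^ (DD m - 1)) := by
    intro β
    set T : Finset ((i : K) × Fin (m i + 1)) := Finset.univ.sigma fun i => Finset.univ.erase (β i)
      with hT
    obtain ⟨ψ, h1, -, h3, h4⟩ := PHE_mul (X - C t₀)
      (σ β ::ₘ σ β ::ₘ (T.val.map fun x : (i : K) × Fin (m i + 1) => σ (Function.update β x.1 x.2)))
    have hcard : Multiset.card
        (σ β ::ₘ σ β ::ₘ (T.val.map fun x : (i : K) × Fin (m i + 1) => σ (Function.update β x.1 x.2))) = DD m := by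
      rw [Multiset.card_cons, Multiset.card_cons, Multiset.card_map, Finset.card_val, hT,
        Finset.card_sigma]
      unfold DD
      simp only [Finset.card_erase_of_mem (Finset.mem_univ _), Finset.card_univ, Fintype.card_fin,
        Nat.add_sub_cancel]
      ring
    have hsum : (σ β ::ₘ σ β ::ₘ (T.val.map fun x : (i : K) × Fin (m i + 1) => σ (Function.update β x.1 x.2))).sum =
        Mx σ β := by
      rw [Multiset.sum_cons, Multiset.sum_cons]
      have h : (T.val.map fun x : (i : K) × Fin (m i + 1) => σ (Function.update β x.1 x.2)).sum =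
          ∑ x ∈ T, σ (Function.update β x.1 x.2) := rfl
      rw [h, hT, Finset.sum_sigma]
      unfold Mx
      ring
    rw [hcard] at h1 h3 h4
    rw [hsum] at h4
    refine ⟨ψ, fun ε => ?_, h3, h4⟩
    rw [← h1, Multiset.map_cons, Multiset.map_cons, Multiset.prod_cons, Multiset.prod_cons,
      Multiset.map_map]
    have h : (T.val.map ((fun s => X - C t₀ - C (ε * s)) ∘
        fun x : (i : K) × Fin (m i + 1) => σ (Function.update β x.1 x.2))).prod =
        ∏ x ∈ T, (X - C t₀ - C (ε * σ (Function.update β x.1 x.2))) := rfl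
    rw [h, hT, Finset.prod_sigma]
    unfold phi
    simp only [C_add, sub_add_eq_sub_sub]
    ring
  choose ψ h1 h2 h3 using key
  exact ⟨fun k β => ψ β k, fun ε β => h1 β ε, h2, h3⟩

end Pool.Agent.SVA
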